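import Pool.Agent.N520.AN.Stm2

/-!
Project AN2 (helper520), part CPT: the set of plates is compact (second version, without form).
-/

set_option autoImplicit false

open Set Filter Topology

namespace Pool.Agent.N562.AN2

open Pool.Agent.N520.AN

theorem t_cpt (h1 : Pool.Agent.N520.AN.S2_GR) (h2 : Pool.Agent.N520.AN.S2_SUB)
    (h3 : Pool.Agent.N520.AN.S2_TWO) : Pool.Agent.N520.AN.S2_CPT := by
  intro E _ _ _ q Λ H
  have hpr : ProperSpace E := FiniteDimensional.proper_real E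
  set n := Module.finrank ℝ E with hn
  let S : EuclideanSpace ℝ (Fin (Module.finrank ℝ E)) →L[ℝ] E :=
    (toEuclidean (E := E)).symm.toContinuousLinearMap
  let T : E →L[ℝ] EuclideanSpace ℝ (Fin (Module.finrank ℝ E)) :=
    (toEuclidean (E := E)).toContinuousLinearMap
  have hTs : ∀ x : E, ‖x‖ ≤ ‖S‖ * ‖toEuclidean x‖ := by
    intro x
    have := S.le_opNorm (toEuclidean x)
    simpa [S] using this
  have hTt : ∀ x : E, ‖toEuclidean x‖ ≤ ‖T‖ * ‖x‖ := by
    intro x
    exact T.le_opNorm x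
  have hprF : ProperSpace (EuclideanSpace ℝ (Fin (n - q)) →L[ℝ] E) :=
    FiniteDimensional.proper_real _
  have hprG : ProperSpace (EuclideanSpace ℝ (Fin (n - q))) :=
    FiniteDimensional.proper_real _
  have hbdd : Bornology.IsBounded (Plt q Λ) := by
    rw [isBounded_iff_forall_norm_le]
    refine ⟨‖S‖, fun k hk => ?_⟩
    refine ContinuousLinearMap.opNorm_le_bound _ (norm_nonneg _) (fun f => ?_)
    have := hTs (k f)
    rwa [hk.1 f] at this
  refine Metric.isCompact_of_isClosed_isBounded ?_ hbdd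
  refine IsSeqClosed.isClosed ?_
  intro k k0 hk hlim
  have hkf : ∀ f, Tendsto (fun i => k i f) atTop (𝓝 (k0 f)) := by
    intro f
    have := ((ContinuousLinearMap.apply ℝ E f).continuous.tendsto k0).comp hlim
    exact this
  choose hnorm g hg hfl hgr using hk
  -- STEP 1
  have st1 : ∀ i : ℕ, ∃ j : ℕ, ∀ v : E, ‖v‖ ≤ 1 →
      (∀ f, (1 : ℝ) / ((i : ℝ) + 1) ≤ ‖v - k i f‖) → (i : ℝ) ≤ ‖(g i j).symm v‖ := by
    intro i
    by_contra hcon
    push Not at hcon
    choose v hv hvf hvi using hcon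
    obtain ⟨v0, -, φ, hφ, hvφ⟩ := tendsto_subseq_of_bounded
      (s := Metric.closedBall (0 : E) 1) (x := v) Metric.isBounded_closedBall
      (fun j => by simpa using hv j)
    have hb : v0 ∈ big (g i ∘ φ) := by
      refine ⟨fun j => (g i (φ j)).symm (v (φ j)), i, fun j => (hvi (φ j)).le, ?_⟩
      have h4 : Tendsto (fun j => v (φ j)) atTop (𝓝 v0) := hvφ
      simpa using h4
    rw [((h2 E q Λ H (g i) (hg i)).2.2 (hfl i) φ hφ).2, ← hgr i] at hb
    obtain ⟨f, hf⟩ := hb
    have e1 : Tendsto (fun j => ‖v (φ j) - k i f‖) atTop (𝓝 ‖v0 - k i f‖) :=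
      (hvφ.sub_const (k i f)).norm
    have e2 := ge_of_tendsto' e1 (fun j => hvf (φ j) f)
    rw [hf, sub_self, norm_zero] at e2
    have : (0 : ℝ) < 1 / ((i : ℝ) + 1) := Nat.one_div_pos_of_nat
    linarith
  choose J hJ using st1
  let h : ℕ → E ≃ₗ[ℝ] E := fun i => g i (J i)
  have hh : ∀ i, h i ∈ Λ := fun i => hg i (J i)
  -- STEP 2
  have st2a : ∀ φ : ℕ → ℕ, StrictMono φ → ∀ v ∈ big (h ∘ φ), ‖v‖ < 1 → v ∈ range k0 := by
    rintro φ hφ v ⟨x, C, hx, hv⟩ hv1
    have e1 : ∀ᶠ i in atTop, ‖h (φ i) (x i)‖ < 1 := hv.norm.eventually (gt_mem_nhds hv1)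
    have e2 : ∀ᶠ i in atTop, C < (φ i : ℝ) :=
      (tendsto_natCast_atTop_atTop.comp hφ.tendsto_atTop).eventually (eventually_gt_atTop C)
    obtain ⟨N, hN⟩ := eventually_atTop.1 (e1.and e2)
    have e3 : ∀ i, ∃ f, ‖h (φ (i + N)) (x (i + N)) - k (φ (i + N)) f‖ <
        1 / ((φ (i + N) : ℝ) + 1) := by
      intro i
      by_contra hcon
      push Not at hcon
      have := hJ (φ (i + N)) (h (φ (i + N)) (x (i + N))) (hN (i + N) (by omega)).1.le hcon
      have h4 : (g (φ (i + N)) (J (φ (i + N)))).symm (h (φ (i + N)) (x (i + N))) = x (i + N) :=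
        (g (φ (i + N)) (J (φ (i + N)))).symm_apply_apply _
      rw [h4] at this
      have := hx (i + N)
      have := (hN (i + N) (by omega)).2
      linarith
    choose f hf using e3
    have hfb : ∀ i, ‖f i‖ ≤ ‖T‖ * 2 := by
      intro i
      rw [← hnorm (φ (i + N)) (f i)]
      refine (hTt _).trans (mul_le_mul_of_nonneg_left ?_ (norm_nonneg _))
      have e4 := norm_sub_norm_le (k (φ (i + N)) (f i)) (h (φ (i + N)) (x (i + N)))
      rw [norm_sub_rev] at e4
      have e5 := hf i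
      have e6 : (1 : ℝ) / ((φ (i + N) : ℝ) + 1) ≤ 1 := by
        rw [div_le_one (by positivity)]
        have : (0 : ℝ) ≤ (φ (i + N) : ℝ) := Nat.cast_nonneg _
        linarith
      have e7 := (hN (i + N) (by omega)).1
      linarith
    obtain ⟨f0, -, ψ, hψ, hfψ⟩ := tendsto_subseq_of_bounded
      (s := Metric.closedBall (0 : EuclideanSpace ℝ (Fin (n - q))) (‖T‖ * 2)) (x := f)
      Metric.isBounded_closedBall (fun j => by simpa using hfb j)
    have hθ : Tendsto (fun i => ψ i + N) atTop atTop :=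
      tendsto_atTop_mono (fun i => Nat.le_add_right _ _) hψ.tendsto_atTop
    have hθ' : Tendsto (fun i => φ (ψ i + N)) atTop atTop := hφ.tendsto_atTop.comp hθ
    have e8a : Tendsto (fun i => k (φ (ψ i + N))) atTop (𝓝 k0) := hlim.comp hθ'
    have e8b : Tendsto (fun i => f (ψ i)) atTop (𝓝 f0) := hfψ
    have e8 : Tendsto (fun i => k (φ (ψ i + N)) (f (ψ i))) atTop (𝓝 (k0 f0)) :=
      (isBoundedBilinearMap_apply.continuous.tendsto (k0, f0)).comp (e8a.prodMk_nhds e8b)
    have e9 : Tendsto (fun i => h (φ (ψ i + N)) (x (ψ i + N)) - k (φ (ψ i + N)) (f (ψ i)))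
        atTop (𝓝 0) :=
      squeeze_zero_norm (fun i => (hf (ψ i)).le)
        (tendsto_one_div_add_atTop_nhds_zero_nat.comp hθ')
    have e10 : Tendsto (fun i => h (φ (ψ i + N)) (x (ψ i + N))) atTop (𝓝 v) := hv.comp hθ
    have e11 := e9.add e8
    simp only [sub_add_cancel, zero_add] at e11
    exact ⟨f0, tendsto_nhds_unique e11 e10⟩
  have st2 : ∀ φ : ℕ → ℕ, StrictMono φ → big (h ∘ φ) ≤ LinearMap.range k0.toLinearMap := by
    intro φ hφ v hv
    set c : ℝ := (‖v‖ + 1)⁻¹ with hc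
    have hc0 : 0 < c := by positivity
    have h4 : ‖c • v‖ < 1 := by
      rw [norm_smul, Real.norm_of_nonneg hc0.le, hc, inv_mul_lt_one₀ (by positivity)]
      linarith
    obtain ⟨f, hf⟩ := st2a φ hφ (c • v) ((big (h ∘ φ)).smul_mem c hv) h4
    refine ⟨c⁻¹ • f, ?_⟩
    show k0 (c⁻¹ • f) = v
    rw [map_smul, hf, smul_smul, inv_mul_cancel₀ hc0.ne', one_smul]
  -- the norms
  have hnorm0 : ∀ f, ‖toEuclidean (k0 f)‖ = ‖f‖ := by
    intro f
    have h1 : Tendsto (fun i => ‖toEuclidean (k i f)‖) atTop (𝓝 ‖toEuclidean (k0 f)‖) :=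
      (((toEuclidean (E := E)).continuous.tendsto _).comp (hkf f)).norm
    simp only [hnorm] at h1
    exact (tendsto_nhds_unique h1 tendsto_const_nhds)
  have hk0inj : Function.Injective k0 := by
    rw [injective_iff_map_eq_zero]
    intro f hf
    have := hnorm0 f
    rw [hf, map_zero, norm_zero] at this
    exact norm_eq_zero.1 this.symm
  have hdim : Module.finrank ℝ (LinearMap.range k0.toLinearMap) = n - q := by
    rw [LinearMap.finrank_range_of_inj hk0inj]
    simp [hn]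
  have hqn : q ≤ n := by
    have := (hfl 0).2
    omega
  have hq := H.pos
  -- STEP 3
  obtain ⟨φ1, hφ1, hd1⟩ := h1 E h
  have hle := Submodule.finrank_mono (st2 φ1 hφ1)
  have hpos : 0 < Module.finrank ℝ (att (inv h ∘ φ1)) := by omega
  have hne : att (inv h ∘ φ1) ≠ ⊥ := by
    intro h0
    rw [h0, finrank_bot] at hpos
    omega
  obtain ⟨v, hv, hv0⟩ := Submodule.exists_mem_ne_zero_of_ne_bot hne
  have hdiv := div_of_att hv hv0
  obtain ⟨φ2, hφ2, -, hfl2⟩ := h3 E q Λ H (inv h ∘ φ1) (fun j => inv_mem' hh (φ1 j)) hdiv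
  have hfl3 : Fl q (h ∘ (φ1 ∘ φ2)) := hfl2
  have heq : big (h ∘ (φ1 ∘ φ2)) = LinearMap.range k0.toLinearMap := by
    refine Submodule.eq_of_le_of_finrank_eq (st2 _ (hφ1.comp hφ2)) ?_
    rw [hdim]
    have := hfl3.2
    omega
  refine ⟨hnorm0, h ∘ (φ1 ∘ φ2), fun j => hh _, hfl3, fun x => ?_⟩
  rw [heq]
  rfl

end Pool.Agent.N562.AN2
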